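import Mathlib

/-!
Minimal area of univalent functions with given second coefficient (MP_7b8da2_an).
Definitions of the final statement and of the proof.
-/

set_option autoImplicit false

open Complex MeasureTheory Set Metric
open scoped Real ENNReal ComplexConjugate

namespace Pool.MNA

/-! ### The final statement -/

/-- The class `S`. -/
def IsS (f : ℂ → ℂ) : Prop :=
  DifferentiableOn ℂ f (ball 0 1) ∧ InjOn f (ball 0 1) ∧ f 0 = 0 ∧ deriv f 0 = 1

/-- The second coefficient. -/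
noncomputable def a2 (f : ℂ → ℂ) : ℂ := deriv (deriv f) 0 / 2

/-- The area of the image domain. -/
noncomputable def area (f : ℂ → ℂ) : ℝ≥0∞ := volume (f '' ball 0 1)

/-! ### The field -/

/-- Principal square root. -/
noncomputable def sq (z : ℂ) : ℂ := z ^ (1 / 2 : ℂ)

noncomputable def Rt (v : ℂ) : ℂ := sq (1 + 2 * v ^ 2)

noncomputable def Mq (v : ℂ) : ℂ := sq (2 / (1 + Rt v))

noncomputable def Q (v : ℂ) : ℂ := v * Mq v

noncomputable def tau (v : ℂ) : ℂ := (Q v)⁻¹ - Q v

noncomputable def psi (v : ℂ) : ℝ := (tau v).im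

/-- The two half lines where `Rt` is not continuous (with their end points). -/
def Cut : Set ℂ := {v | v.re = 0 ∧ 1 / 2 ≤ v.im ^ 2}

/-- The odd function with square `f (s ^ 2)`, `f z = z * k z ^ 2`. -/
def gf (k : ℂ → ℂ) (s : ℂ) : ℂ := s * k (s ^ 2)

/-- The derivative of `tau (gf k s)`. -/
noncomputable def dT (k : ℂ → ℂ) (s : ℂ) : ℂ := -(gf k s * deriv (gf k) s) / Q (gf k s) ^ 3

/-- The derivative of `c * (1 / s - s)`. -/
noncomputable def dV (c : ℝ) (s : ℂ) : ℂ := -(c : ℂ) * (1 + (s⁻¹) ^ 2)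

def ann (ε : ℝ) : Set ℂ := {s | ε < ‖s‖ ∧ ‖s‖ < 1}

/-- `z * k z ^ 2` is univalent on a disc larger than the unit disc. -/
structure Adm (k : ℂ → ℂ) (R b : ℝ) : Prop where
  hR : 1 < R
  hb : 0 < b
  hd : DifferentiableOn ℂ k (ball 0 R)
  h0 : k 0 = b
  hi : InjOn (fun z => z * k z ^ 2) (ball 0 R)

end Pool.MNA
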