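import Pool.Agent.H1.MNA.Defs

/-!
Statements of the rows.  A row `XXX` is `theorem xxx_thm (h1 : DEP1_S) ... : XXX_S`.

THEOREM: the least area of `f(D)` for `f ∈ S` with second coefficient `c` is
`π(1+2|c|²)` for `|c| ≤ 1/2` (known) and `27π / (8 (2-|c|)²)` for `1/2 ≤ |c| ≤ 2`.

IDEA of the lower bound.  `f z = z * k z ^ 2`, `g s = s * k (s^2)` (so `g s ^ 2 = f (s^2)`).
`tau` is the (explicit) flow of the extremal domain: `v^2 = Q^2 + Q^4/2`, `tau = 1/Q - Q`,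
`tau' = -v/Q^3`; its imaginary part `psi` is continuous on `v ≠ 0`.  One expands
`0 ≤ ∫ ‖dT - dV‖²` over the annulus `ε < ‖s‖ < 1`, `T = tau ∘ g`, `V = c (1/s - s)`, `c = 1/b`.
All formulas are checked numerically.
-/

set_option autoImplicit false

open Complex MeasureTheory Set Metric
open scoped Real ENNReal ComplexConjugate

namespace Pool.MNA

/-! ### The functions `sq`, `Rt`, `Q`, `tau` -/

/-- SQB. Basic facts on the principal square root (`Complex.cpow`). -/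
def SQB_S : Prop :=
  (∀ z : ℂ, sq z ^ 2 = z) ∧ (∀ z : ℂ, 0 ≤ (sq z).re) ∧
  (∀ z ∈ slitPlane, 0 < (sq z).re ∧ HasDerivAt sq (1 / (2 * sq z)) z) ∧
  (∀ w : ℂ, 0 < w.re → sq (w ^ 2) = w) ∧
  (∀ z ∈ slitPlane, sq (conj z) = conj (sq z)) ∧ sq 1 = 1 ∧ sq 0 = 0

/-- CUT. `v ∈ Cut` iff `1 + 2 v²` is a nonpositive real number. -/
def CUT_S : Prop := ∀ v : ℂ, v ∉ Cut ↔ 1 + 2 * v ^ 2 ∈ slitPlane

/-- QAL. Algebra, for all `v` (needs SQB). `Q² = v² · 2/(1+R) = R - 1` as `2 v² = R² - 1`;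
`Q² + Q⁴/2 = (R²-1)/2`; on the cut `R` is purely imaginary, so `|Q²| = |R - 1| ≥ 1`; if
`Q v = Q v'` then `v'² = v²`, and `Q (-v) = -Q v`. -/
def QAL_S : Prop :=
  (∀ v : ℂ, Rt v ^ 2 = 1 + 2 * v ^ 2 ∧ 0 ≤ (Rt v).re ∧ 1 + Rt v ≠ 0 ∧ Mq v ≠ 0 ∧
    Q v ^ 2 = Rt v - 1 ∧ v ^ 2 = Q v ^ 2 + Q v ^ 4 / 2 ∧ Q (-v) = -Q v ∧ (Q v = 0 ↔ v = 0)) ∧
  (∀ v v' : ℂ, Q v = Q v' → v = v') ∧ (∀ v ∈ Cut, 1 ≤ ‖Q v‖) ∧ Rt 0 = 1 ∧ Mq 0 = 1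

/-- QDV. Derivatives off the cut (needs SQB CUT QAL). `2 v = (2 Q + 2 Q³) Q' = 2 Q R Q'`, or
directly from the formulas; `1 + Re R > 0`, so `2/(1+R)` is in the slit plane. -/
def QDV_S : Prop := ∀ v : ℂ, v ∉ Cut → DifferentiableAt ℂ Q v ∧ (v ≠ 0 →
  0 < (Rt v).re ∧ Rt v ≠ 0 ∧ HasDerivAt Q (v / (Q v * Rt v)) v ∧
  HasDerivAt tau (-v / Q v ^ 3) v)

/-- PSB. Bound of the derivative (needs QAL). If `|Q| ≤ 1` then `|v|² ≤ 3/2 |Q|²`; if `|Q| ≥ 1`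
trivial. -/
def PSB_S : Prop := ∀ v : ℂ, v ≠ 0 → ‖v / Q v ^ 3‖ ≤ ‖v‖ + 2 / ‖v‖ ^ 2

/-- PSC. `psi` is continuous off `0` (needs SQB CUT QAL QDV). Write `tau v = N/v` with
`N = (2 - R) / Mq v`, an analytic function `Φ(R)` of `R`, `Re R ≥ 0`, with
`Φ (conj R) = conj Φ(R)`. Off the cut `tau` is continuous. At a point `v₀` of the cut:
`psi v = (Im N · Re v - Re N · Im v) / |v|²`; `Re v → 0` and `N` is bounded near `v₀`; and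
`Re N = Re Φ(R₊)` where `R₊ = Re R + i |Im R|` depends continuously on `v` (`(Re R)²` and
`(Im R)²` are `(|ζ| ± Re ζ)/2`, `ζ = 1 + 2 v²`). -/
def PSC_S : Prop := ContinuousOn psi {0}ᶜ

/-- PLS. `psi` is Lipschitz along segments that stay away from `0` (needs CUT QDV PSB PSC).
`L = B + 2/a²`. In the open right (left) half plane: mean value inequality for `tau`
(`|psi v - psi v'| ≤ ‖tau v - tau v'‖`, segment convex). Closed half planes: shift by a small real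
number and pass to the limit (PSC; the constant of the slightly larger annulus tends to `L`).
General segment: cut it at the imaginary axis. -/
def PLS_S : Prop := ∀ a B : ℝ, 0 < a → ∃ L : ℝ, 0 ≤ L ∧ ∀ v v' : ℂ,
  (∀ x ∈ segment ℝ v v', a ≤ ‖x‖ ∧ ‖x‖ ≤ B) → |psi v - psi v'| ≤ L * ‖v - v'‖

/-- CHN. Chaining: locally Lipschitz with uniform scale `δ` implies Lipschitz on an interval. -/
def CHN_S : Prop := ∀ (u : ℝ → ℝ) (p q δ L : ℝ), 0 < δ → 0 ≤ L →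
  (∀ x ∈ Icc p q, ∀ y ∈ Icc p q, |x - y| ≤ δ → |u x - u y| ≤ L * |x - y|) →
  ∀ x ∈ Icc p q, ∀ y ∈ Icc p q, |u x - u y| ≤ L * |x - y|

/-! ### The function `g` -/

/-- GIN. `g` on the disc of radius `√R`: injective (if `g s = g s'` then `s² = s'²`, and `g` is
odd; `k ≠ 0` on the disc because `z k(z)²` is injective and `k 0 = b`), nonzero off `0`,
derivative nonzero (an injective holomorphic function has nonzero derivative; in Mathlib or from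
the local structure of analytic functions). -/
def GIN_S : Prop := ∀ (k : ℂ → ℂ) (R b : ℝ), Adm k R b →
  DifferentiableOn ℂ (gf k) (ball 0 (√R)) ∧ InjOn (gf k) (ball 0 (√R)) ∧
  (∀ s ∈ ball (0 : ℂ) (√R), s ≠ 0 → gf k s ≠ 0) ∧
  (∀ s ∈ ball (0 : ℂ) (√R), deriv (gf k) s ≠ 0) ∧ gf k 0 = 0 ∧ deriv (gf k) 0 = b ∧
  (∀ s, gf k (-s) = -gf k s) ∧ (∀ z ∈ ball (0 : ℂ) R, k z ≠ 0)

/-- NUL. (needs GIN CVF) The set where `g` is purely imaginary is a null set: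
`∫_Z ‖g'‖² = volume (g '' Z) ≤ volume (imaginary axis) = 0` and `g' ≠ 0`. -/
def NUL_S : Prop := ∀ (k : ℂ → ℂ) (R b : ℝ), Adm k R b →
  volume {s ∈ ball (0 : ℂ) (√R) | (gf k s).re = 0} = 0

/-- PLG. (needs GIN PLS CHN) `psi ∘ g` is Lipschitz along circles and rays in the closed
annulus: `‖g‖ ≥ 2a > 0` and `‖g‖ ≤ B`, `g` is Lipschitz there (compactness; on rays and circles by
the mean value inequality), and for close points the segment between the images stays in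
`a ≤ ‖v‖ ≤ B + a`; then CHN. -/
def PLG_S : Prop := ∀ (k : ℂ → ℂ) (R b ε : ℝ), Adm k R b → 0 < ε → ε < 1 → ∃ L : ℝ, 0 ≤ L ∧
  (∀ r ∈ Icc ε 1, ∀ x ∈ Icc (-π) π, ∀ y ∈ Icc (-π) π,
    |psi (gf k (r * exp (x * I))) - psi (gf k (r * exp (y * I)))| ≤ L * |x - y|) ∧
  (∀ x ∈ Icc (-π) π, ∀ r ∈ Icc ε 1, ∀ r' ∈ Icc ε 1,
    |psi (gf k (r * exp (x * I))) - psi (gf k (r' * exp (x * I)))| ≤ L * |r - r'|)

/-- TDV. (needs GIN QDV) Derivatives of `psi ∘ g` along rays and circles, off the cut. Chain rule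
for `tau ∘ gf k` with derivative `dT k s`, then `im`. -/
def TDV_S : Prop := ∀ (k : ℂ → ℂ) (R b : ℝ), Adm k R b → ∀ s ∈ ball (0 : ℂ) (√R), s ≠ 0 →
  gf k s ∉ Cut → HasDerivAt (fun z => tau (gf k z)) (dT k s) s ∧
  ∀ r x : ℝ, s = r * exp (x * I) →
    HasDerivAt (fun y : ℝ => psi (gf k (y * exp (x * I)))) (dT k s * exp (x * I)).im r ∧
    HasDerivAt (fun y : ℝ => psi (gf k (r * exp (y * I)))) (dT k s * (I * s)).im x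

/-- MSD. (needs GIN QDV NUL) `dT k` is almost everywhere measurable on the annulus and bounded:
it is continuous off the null set where `g` is purely imaginary (`g` is bounded away from `0`);
the bound is from PSB. -/
def MSD_S : Prop := ∀ (k : ℂ → ℂ) (R b ε : ℝ), Adm k R b → 0 < ε →
  AEMeasurable (dT k) (volume.restrict (ann ε)) ∧ ∃ K : ℝ, ∀ s ∈ ann ε, ‖dT k s‖ ≤ K

/-! ### Integrals over the annulus -/

/-- GRN. Green's identity on the annulus. Polar coordinates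
(`Complex.integral_comp_polarCoord_symm`), Fubini. With `W = c (1/r - r) cos x`:
`r Re (D conj dV) = -(P_r W_x - P_x W_r)` with `P_r = Im (D e^{ix})`, `P_x = Im (D i s)`; for
almost all `x` integrate by parts in `r`, for almost all `r` in `x` (Lipschitz functions are
absolutely continuous: `AbsolutelyContinuousOnInterval.integral_deriv_mul_eq_sub` and neighbours),
`W_x = 0` at `r = 1`, and the two double integrals of `P W_{xr}` cancel. -/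
def GRN_S : Prop := ∀ (P : ℂ → ℝ) (D : ℂ → ℂ) (Z : Set ℂ) (ε c L K : ℝ), 0 < ε → ε < 1 →
  volume Z = 0 → 0 ≤ L →
  (∀ r ∈ Icc ε 1, ∀ x ∈ Icc (-π) π, ∀ y ∈ Icc (-π) π,
    |P (r * exp (x * I)) - P (r * exp (y * I))| ≤ L * |x - y|) →
  (∀ x ∈ Icc (-π) π, ∀ r ∈ Icc ε 1, ∀ r' ∈ Icc ε 1,
    |P (r * exp (x * I)) - P (r' * exp (x * I))| ≤ L * |r - r'|) →
  (∀ s ∈ ann ε, s ∉ Z → ∀ r x : ℝ, s = r * exp (x * I) →
    HasDerivAt (fun y : ℝ => P (y * exp (x * I))) (D s * exp (x * I)).im r ∧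
    HasDerivAt (fun y : ℝ => P (r * exp (y * I))) (D s * (I * s)).im x) →
  AEMeasurable D (volume.restrict (ann ε)) → (∀ s ∈ ann ε, ‖D s‖ ≤ K) →
  ∫ s in ann ε, (D s * conj (dV c s)).re =
    ∫ x in (-π)..π, P (ε * exp (x * I)) * (-c * (1 / ε - ε) * Real.sin x)

/-- CIR. First Fourier coefficient of a holomorphic function on a circle (Cauchy's formulas
`∮ h z / z² = 2πi h'(0)`, `∮ h z = 0`). -/
def CIR_S : Prop := ∀ (h : ℂ → ℂ) (ε₁ ε : ℝ), 0 < ε → ε < ε₁ →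
  DifferentiableOn ℂ h (ball 0 ε₁) →
  ∫ x in (-π)..π, (h (ε * exp (x * I))).im * Real.sin x = π * ε * (deriv h 0).re

/-- V0I. `∫ ‖dV‖²` over the annulus. Polar coordinates:
`‖1 + s⁻²‖² = 1 + 2 r⁻² cos 2x + r⁻⁴`. -/
def V0I_S : Prop := ∀ c ε : ℝ, 0 < ε → ε < 1 → IntegrableOn (fun s => ‖dV c s‖ ^ 2) (ann ε) ∧
  ∫ s in ann ε, ‖dV c s‖ ^ 2 = c ^ 2 * π * (1 / ε ^ 2 - ε ^ 2)

/-- T3P. `∫ ‖q (1 + q²)‖²` over the unit disc is `3π/4`. -/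
def T3P_S : Prop :=
  ∫⁻ q in ball (0 : ℂ) 1, ENNReal.ofReal (‖q * (1 + q ^ 2)‖ ^ 2) = ENNReal.ofReal (3 * π / 4)

/-- CVF. Change of variables for an injective complex differentiable function
(`MeasureTheory.lintegral_image_eq_lintegral_abs_det_fderiv_mul`; the determinant of the
multiplication by `z` is `‖z‖²`). -/
def CVF_S : Prop := ∀ (A : Set ℂ) (F F' : ℂ → ℂ) (w : ℂ → ℝ≥0∞), MeasurableSet A →
  (∀ s ∈ A, HasDerivAt F (F' s) s) → InjOn F A →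
  ∫⁻ q in F '' A, w q = ∫⁻ s in A, ENNReal.ofReal (‖F' s‖ ^ 2) * w (F s)

/-- DET. The real determinant of `x ↦ x + β conj x` is `1 - ‖β‖²`. -/
def DET_S : Prop := ∀ (β : ℂ) (A : ℂ →L[ℝ] ℂ), (∀ x, A x = x + β * conj x) →
  A.det = 1 - ‖β‖ ^ 2

/-- LIM. Folding the plane into a disc by inversion is `1`-Lipschitz. (`|u|, |v| ≥ U`:
`|U²u/|u|² - U²v/|v|²| = U² |u - v| / (|u||v|)`; mixed case: expand the squares and use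
`(λ+1)/√λ ≥ 2`, `λ = |u|²/U²`.) -/
def LIM_S : Prop := ∀ (U : ℝ) (u v : ℂ), 0 < U →
  ‖(if ‖u‖ ≤ U then u else ((U ^ 2 / ‖u‖ ^ 2 : ℝ) : ℂ) * u) -
    (if ‖v‖ ≤ U then v else ((U ^ 2 / ‖v‖ ^ 2 : ℝ) : ℂ) * v)‖ ≤ ‖u - v‖

/-- ARE. (needs DET LIM) Area of the complement of the image of a punctured disc under
`c / s + h s`. Put `U = c/ε`, `m u = u` for `‖u‖ ≤ U`, `U² u/‖u‖²` for `‖u‖ > U`,
`e u = h ((ε²/c) conj (m u))`: Lipschitz with constant `K ε²/c < 1` (LIM and the mean value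
inequality for `h` on the closed disc), so `u ↦ u + e u` is onto (fixed point of
`u ↦ v - e u`, `ContractingWith`). If `‖u‖ > U` then with `s = c/u`: `u + e u = c/s + h s`. So the
complement is in the image of `closedBall 0 U` under `u ↦ u + h ((ε²/c) conj u)`, whose
determinant is `1 - ‖β‖²`, `‖β‖ ≤ K ε²/c < 1` (DET); use
`MeasureTheory.addHaar_image_le_lintegral_abs_det_fderiv`. -/
def ARE_S : Prop := ∀ (c ε ε₀ K : ℝ) (h : ℂ → ℂ), 0 < c → 0 < ε → ε < ε₀ → 0 ≤ K →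
  K * ε ^ 2 < c → DifferentiableOn ℂ h (ball 0 ε₀) → (∀ s, ‖s‖ ≤ ε → ‖deriv h s‖ ≤ K) →
  volume (((fun s => (c : ℂ) / s + h s) '' {s | s ≠ 0 ∧ ‖s‖ < ε})ᶜ) ≤
    ENNReal.ofReal (π * (c / ε) ^ 2)

/-- EXP. (needs QAL QDV CUT SQB GIN) Expansion of `tau ∘ g` at `0`. With `z = s²`:
`tau (g s) = ν(s²)/s`, `ν z = n (z * k z ^ 2) / k z`, `n ω = (2 - R) / sq (2/(1+R))`,
`R = sq (1 + 2 ω)`, `n 0 = 1`, `n' 0 = -3/4`; so `ν 0 = 1/b`, `ν' 0 = -(3/4) b - k' 0 / b²`. Take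
`h s = s * dslope ν 0 (s ^ 2)`. Shrink `ε₁` to bound `deriv h`. -/
def EXP_S : Prop := ∀ (k : ℂ → ℂ) (R b : ℝ), Adm k R b → ∃ ε₁ K : ℝ, 0 < ε₁ ∧ ε₁ < 1 ∧ 0 ≤ K ∧
  ∃ h : ℂ → ℂ, DifferentiableOn ℂ h (ball 0 ε₁) ∧
  deriv h 0 = -(3 / 4) * b - deriv k 0 / b ^ 2 ∧ (∀ s ∈ ball (0 : ℂ) ε₁, ‖deriv h s‖ ≤ K) ∧
  (∀ s ∈ ball (0 : ℂ) ε₁, s ≠ 0 → tau (gf k s) = ((1 / b : ℝ) : ℂ) / s + h s) ∧
  (∀ s ∈ ball (0 : ℂ) ε₁, ‖Q (gf k s)‖ < 1 ∧ gf k s ∉ Cut)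

/-- JIN. `q ↦ 1/q - q` is injective on the punctured unit disc, with derivative
`-(1 + q²)/q²`. -/
def JIN_S : Prop := InjOn (fun q : ℂ => q⁻¹ - q) {q | q ≠ 0 ∧ ‖q‖ < 1} ∧
  ∀ q : ℂ, q ≠ 0 → HasDerivAt (fun q : ℂ => q⁻¹ - q) (-(1 + q ^ 2) / q ^ 2) q

/-- CVB. (needs QAL QDV GIN CVF T3P JIN) The main comparison. `κ = Q ∘ g` is injective; on
`M = {s ∈ ann ε | ‖κ s‖ < 1}` (an open set, there `g s ∉ Cut`) `κ' = g g' / (κ (1 + κ²))`, so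
`g g' = κ (1+κ²) κ'` and `dT = -(1+κ²) κ' / κ²`. CVF with `F = κ` on `M` and on `closedBall 0 ε`,
with the weights `a q = ‖(1+q²)/q²‖²` and `d q = ‖q (1+q²)‖²`, `a ≥ d` on the unit disc `B`.
`KM = κ '' M`, `KE = κ '' closedBall 0 ε` are disjoint measurable subsets of `B`;
`∫_{B \ KE} a = volume ((q⁻¹ - q) '' (B \ KE)) ≤ V` (JIN, CVF; a point of this set is not
`tau (g s) = 1/κ s - κ s` with `‖s‖ < ε`), `∫_B d = 3π/4`. So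
`∫_M ‖dT‖² + 3π/4 = ∫_{KM} a + ∫_{KM} d + ∫_{KE} d + ∫_{B∖KM∖KE} d ≤ V + ∫_M ‖gg'‖² + ∫_{‖s‖≤ε} ‖gg'‖²`.
Off `M`: `‖κ‖ ≥ 1`, so `‖dT‖ ≤ ‖g g'‖`. -/
def CVB_S : Prop := ∀ (k : ℂ → ℂ) (R b ε : ℝ) (V : ℝ≥0∞), Adm k R b → 0 < ε → ε < 1 →
  (∀ s : ℂ, ‖s‖ ≤ ε → ‖Q (gf k s)‖ < 1 ∧ gf k s ∉ Cut) →
  volume (((fun s => tau (gf k s)) '' {s | s ≠ 0 ∧ ‖s‖ < ε})ᶜ) ≤ V →
  (∫⁻ s in ann ε, ENNReal.ofReal (‖dT k s‖ ^ 2)) + ENNReal.ofReal (3 * π / 4) ≤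
    V + ∫⁻ s in ball 0 1, ENNReal.ofReal (‖gf k s * deriv (gf k) s‖ ^ 2)

/-- FNG. (needs GIN) `∫ ‖g g'‖²` over the unit disc is finite (continuity on the closed unit disc,
which is compact and contained in `ball 0 √R`). -/
def FNG_S : Prop := ∀ (k : ℂ → ℂ) (R b : ℝ), Adm k R b →
  ∫⁻ s in ball (0 : ℂ) 1, ENNReal.ofReal (‖gf k s * deriv (gf k) s‖ ^ 2) ≠ ⊤

/-- CO1. (needs GRN PLG TDV MSD NUL EXP CIR V0I ARE CVB FNG) The inequality for a small `ε`, with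
`c = 1/b`, `t = -(3/4) b - Re k' 0 / b²`, `G = ∫ ‖g g'‖²` over the unit disc:
`0 ≤ ∫ ‖dT - dV‖² = I1 - 2 I2 + I3`, `I1 = c² π (1/ε² - ε²)`,
`I2 = π c (1/ε - ε) (c/ε - ε t)` (GRN with `P = psi ∘ g`, `Z = {g purely imaginary}`, CIR and
`∫ Im (c/(ε e^{ix})) sin x = -π c/ε`), `I3 ≤ π c²/ε² - 3π/4 + G`. -/
def CO1_S : Prop := ∀ (k : ℂ → ℂ) (R b : ℝ), Adm k R b → ∃ ε₂ : ℝ, 0 < ε₂ ∧
  ∀ ε : ℝ, 0 < ε → ε < ε₂ →
  let G := (∫⁻ s in ball (0 : ℂ) 1, ENNReal.ofReal (‖gf k s * deriv (gf k) s‖ ^ 2)).toReal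
  let t := -(3 / 4) * b - (deriv k 0).re / b ^ 2
  3 * π / 4 + π * ε ^ 2 / b ^ 2 ≤
    2 * π / b ^ 2 + 2 * π * t / b - 2 * π * t * ε ^ 2 / b + G

/-- COR. (needs CO1) `ε → 0`. -/
def COR_S : Prop := ∀ (k : ℂ → ℂ) (R b : ℝ), Adm k R b →
  9 * π / 4 ≤ π / b ^ 2 * (2 - 2 * ((deriv k 0).re / b)) +
    (∫⁻ s in ball (0 : ℂ) 1, ENNReal.ofReal (‖gf k s * deriv (gf k) s‖ ^ 2)).toReal

/-- SQ2. (needs CVF) The substitution `z = s²` on the unit disc (right and left half discs, minus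
the imaginary axis, which is a null set). -/
def SQ2_S : Prop := ∀ F : ℂ → ℝ≥0∞, Measurable F →
  ∫⁻ s in ball (0 : ℂ) 1, ENNReal.ofReal (‖s‖ ^ 2) * F (s ^ 2) =
    (∫⁻ z in ball (0 : ℂ) 1, F z) / 2

/-- ARG. (needs SQ2 CVF) `(g²)' = 2 g g'` and `g s ^ 2 = f (s²)`, so `g g' = s f'(s²)`. -/
def ARG_S : Prop := ∀ (k : ℂ → ℂ) (R b : ℝ), Adm k R b →
  ∫⁻ s in ball (0 : ℂ) 1, ENNReal.ofReal (‖gf k s * deriv (gf k) s‖ ^ 2) =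
    volume ((fun z => z * k z ^ 2) '' ball 0 1) / 2

/-- SQR. The square root of `f z / z` (`dslope f 0`, nonzero on the disc; primitive of the
logarithmic derivative, `DifferentiableOn.isExactOn_ball`), and `a2 f = 2 k' 0`. -/
def SQR_S : Prop := ∀ f : ℂ → ℂ, IsS f → ∃ k : ℂ → ℂ, DifferentiableOn ℂ k (ball 0 1) ∧
  k 0 = 1 ∧ (∀ z ∈ ball (0 : ℂ) 1, f z = z * k z ^ 2) ∧ a2 f = 2 * deriv k 0

/-- LOW. (needs COR ARG SQR) Apply COR to `k_r z = √ρ * k (r z)`, `r < 1`, `b = √ρ`, `R = 1/r`: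
`z k_r(z)² = ρ f(rz)/r`, `deriv k_r 0 = √ρ r k' 0`; volume of `(ρ/r) • f '' ball 0 r` is at most
`(ρ/r)²` times the area; let `r → 1`. -/
def LOW_S : Prop := ∀ f : ℂ → ℂ, IsS f → ∀ ρ : ℝ, 0 < ρ → area f ≠ ⊤ →
  9 / 4 * ρ ≤ (2 - (a2 f).re) + ρ ^ 3 / (2 * π) * (area f).toReal

/-- ROT. Rotations. -/
def ROT_S : Prop := ∀ (f : ℂ → ℂ) (u : ℂ), IsS f → ‖u‖ = 1 →
  IsS (fun z => u⁻¹ * f (u * z)) ∧ a2 (fun z => u⁻¹ * f (u * z)) = u * a2 f ∧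
  area (fun z => u⁻¹ * f (u * z)) = area f

/-- LW2. (needs LOW ROT) The lower bound: rotate to make `a2` real, then in LOW take
`ρ = √(3π/(2A))` (if `A < ⊤`); for `‖a2 f‖ = 2` let `ρ → 0` (`x / 0 = ⊤`). -/
def LW2_S : Prop := ∀ f : ℂ → ℂ, IsS f → ‖a2 f‖ ≤ 2 →
  ENNReal.ofReal (27 * π / 8) / ENNReal.ofReal ((2 - ‖a2 f‖) ^ 2) ≤ area f

/-- PCK. (needs SQB) Pick's function `P = (S-1)/(S+1)`, `S = sq (1 + 4 ρ z/(1-z)²)`, i.e.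
`P/(1-P)² = ρ z/(1-z)²`; `1 + 4 ρ z/(1-z)²` is in the slit plane since `z/(1-z)²` is not in
`(-∞,-1/4]`, `0 < ρ ≤ 1`; `Re S > 0`, so `|P| < 1`; injective since the Koebe function is. -/
def PCK_S : Prop := ∀ ρ : ℝ, 0 < ρ → ρ ≤ 1 → ∃ P : ℂ → ℂ, DifferentiableOn ℂ P (ball 0 1) ∧
  InjOn P (ball 0 1) ∧ MapsTo P (ball 0 1) (ball 0 1) ∧ P 0 = 0 ∧ deriv P 0 = ρ ∧
  deriv (deriv P) 0 = 2 * (2 * ρ - 2 * ρ ^ 2)

/-- CAR. (needs CVF) The cardioid. -/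
def CAR_S : Prop := InjOn (fun p : ℂ => p + p ^ 2 / 2) (ball 0 1) ∧
  volume ((fun p : ℂ => p + p ^ 2 / 2) '' ball 0 1) = ENNReal.ofReal (3 * π / 2)

/-- UPP. (needs PCK CAR ROT) The slit cardioid `f = (P + P²/2)/ρ`, `ρ = (2/3)(2 - ‖c‖)`: area at
most `(3π/2)/ρ² = 27π/(8 (2-‖c‖)²)`, `a2 f = 2 - 3ρ/2 = ‖c‖`; then rotate. -/
def UPP_S : Prop := ∀ c : ℂ, 1 / 2 ≤ ‖c‖ → ‖c‖ < 2 → ∃ f : ℂ → ℂ, IsS f ∧ a2 f = c ∧
  area f ≤ ENNReal.ofReal (27 * π / 8) / ENNReal.ofReal ((2 - ‖c‖) ^ 2)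

/-- KN1. (needs CVF) The known lower bound `π (1 + 2 ‖a2‖²)`: `area f = ∫ ‖f'‖²`; on the disc of
radius `r < 1`, `0 ≤ ∫ ‖f' - (1 + 2 a2 z)‖²`, and `∫ f' conj (1 + 2 a2 z)` by polar coordinates and
Cauchy's formula (or power series and orthogonality). -/
def KN1_S : Prop := ∀ f : ℂ → ℂ, IsS f → ENNReal.ofReal (π * (1 + 2 * ‖a2 f‖ ^ 2)) ≤ area f

/-- KN2. (needs CVF) `z + c z²`. -/
def KN2_S : Prop := ∀ c : ℂ, ‖c‖ ≤ 1 / 2 → IsS (fun z => z + c * z ^ 2) ∧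
  a2 (fun z => z + c * z ^ 2) = c ∧
  area (fun z => z + c * z ^ 2) = ENNReal.ofReal (π * (1 + 2 * ‖c‖ ^ 2))

/-- MAI. (needs LW2 UPP KN1 KN2) The theorem. -/
def MAI_S : Prop := ∀ c : ℂ, ‖c‖ ≤ 2 →
  (⨅ (f : ℂ → ℂ) (_ : IsS f) (_ : a2 f = c), area f) =
    (if ‖c‖ ≤ 1 / 2 then ENNReal.ofReal (π * (1 + 2 * ‖c‖ ^ 2))
      else ENNReal.ofReal (27 * π / 8) / ENNReal.ofReal ((2 - ‖c‖) ^ 2)) ∧
  (‖c‖ < 2 → ∃ f : ℂ → ℂ, IsS f ∧ a2 f = c ∧ area f =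
    (if ‖c‖ ≤ 1 / 2 then ENNReal.ofReal (π * (1 + 2 * ‖c‖ ^ 2))
      else ENNReal.ofReal (27 * π / 8) / ENNReal.ofReal ((2 - ‖c‖) ^ 2)))

end Pool.MNA
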